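import Pool.Agent.Helper20.KS.Stm

/-!
# Package COV of project KS
-/

set_option autoImplicit false

open Finset

namespace Pool.Agent.Helper93.KS

open Pool.Agent.Helper20.KS

theorem cover_nonempty {n : ℕ} (K : Set (EuclideanSpace ℝ (Fin n))) (hK : Bornology.IsBounded K)
    {δ : ℝ} (hδ : 0 < δ) :
    {N | ∃ U : Fin N → Set (EuclideanSpace ℝ (Fin n)),
      (∀ i, ∀ x ∈ U i, ∀ y ∈ U i, dist x y ≤ δ) ∧ K ⊆ ⋃ i, U i}.Nonempty := by
  obtain ⟨t, ht, hKt⟩ := Metric.totallyBounded_iff.1
    ((Bornology.IsBounded.isCompact_closure hK).totallyBounded.subset subset_closure) (δ / 2) (half_pos hδ)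
  have : Fintype t := ht.fintype
  refine ⟨Fintype.card t, fun i => Metric.ball (((Fintype.equivFin t).symm i : t) :
    EuclideanSpace ℝ (Fin n)) (δ / 2), ?_, ?_⟩
  · intro i x hx y hy
    rw [Metric.mem_ball] at hx hy
    have h1 := dist_triangle_right x y (((Fintype.equivFin t).symm i : t) :
      EuclideanSpace ℝ (Fin n))
    linarith
  · intro x hx
    have h1 := hKt hx
    rw [Set.mem_iUnion₂] at h1
    obtain ⟨y, hy, hxy⟩ := h1
    rw [Set.mem_iUnion]
    refine ⟨Fintype.equivFin t ⟨y, hy⟩, ?_⟩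
    rw [Equiv.symm_apply_apply]
    exact hxy

theorem floor_close {a b : ℝ} (h : |a - b| ≤ 1) : ⌊a⌋ ≤ ⌊b⌋ + 1 := by
  have h1 : a ≤ b + 1 := by have := (abs_le.1 h).2; linarith
  calc ⌊a⌋ ≤ ⌊b + 1⌋ := Int.floor_le_floor h1
    _ = ⌊b⌋ + 1 := Int.floor_add_one b

theorem cov : S_COV := by
  classical
  intro n K hK R hR u S hS
  have hR0 : (0 : ℝ) < R := by exact_mod_cast hR
  obtain ⟨U, hU, hKU⟩ := Nat.sInf_mem (cover_nonempty K hK (δ := 1 / R) (by positivity))
  change Fin (coverNum K (1 / R)) → Set (EuclideanSpace ℝ (Fin n)) at U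
  choose! y hyK hy using hS
  have hi : ∀ z ∈ S, ∃ i, y z ∈ U i := fun z hz => Set.mem_iUnion.1 (hKU (hyK z hz))
  by_cases hne : S.Nonempty
  swap
  · rw [Finset.not_nonempty_iff_eq_empty.1 hne]; simp
  obtain ⟨z₀, hz₀⟩ := hne
  have : Nonempty (Fin (coverNum K (1 / R))) := ⟨(hi z₀ hz₀).choose⟩
  choose! i hi using hi
  have hfib : ∀ j ∈ (Finset.univ : Finset (Fin (coverNum K (1 / R)))),
      #(S.filter (fun z => i z = j)) ≤ 3 ^ n := by
    intro j _
    by_cases hne : (S.filter (fun z => i z = j)).Nonempty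
    swap
    · rw [Finset.not_nonempty_iff_eq_empty.1 hne]; simp
    obtain ⟨w, hw⟩ := hne
    rw [Finset.mem_filter] at hw
    have hsub : S.filter (fun z => i z = j) ⊆
        Fintype.piFinset (fun k => Finset.Icc (w k - 1) (w k + 1)) := by
      intro z hz
      rw [Finset.mem_filter] at hz
      rw [Fintype.mem_piFinset]
      intro k
      have hd : dist (y z) (y w) ≤ 1 / R :=
        hU j _ (hz.2 ▸ hi z hz.1) _ (hw.2 ▸ hi w hw.1)
      have hk : |y z k - y w k| ≤ 1 / R := by
        have h1 := PiLp.norm_apply_le (y z - y w) k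
        rw [← dist_eq_norm] at h1
        simpa [Real.norm_eq_abs] using h1.trans hd
      have h2 : |(((R : ℝ) * y z k - u k) - ((R : ℝ) * y w k - u k))| ≤ 1 := by
        have h3 : (((R : ℝ) * y z k - u k) - ((R : ℝ) * y w k - u k)) =
            R * (y z k - y w k) := by ring
        rw [h3, abs_mul, abs_of_pos hR0]
        calc (R : ℝ) * |y z k - y w k| ≤ R * (1 / R) := by
              exact mul_le_mul_of_nonneg_left hk hR0.le
          _ = 1 := by field_simp
      have h3 := floor_close h2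
      rw [abs_sub_comm] at h2
      have h4 := floor_close h2
      rw [← hy z hz.1 k, ← hy w hw.1 k] at h3 h4
      rw [Finset.mem_Icc]
      omega
    refine (Finset.card_le_card hsub).trans ?_
    rw [Fintype.card_piFinset]
    have : ∀ k : Fin n, #(Finset.Icc (w k - 1) (w k + 1)) = 3 := by
      intro k
      rw [Int.card_Icc]
      have : w k + 1 + 1 - (w k - 1) = 3 := by ring
      rw [this]; rfl
    simp [this]
  have hcard := Finset.card_le_mul_card_image_of_maps_to (s := S) (t := Finset.univ) (f := i)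
    (fun _ _ => Finset.mem_univ _) (3 ^ n) hfib
  rw [Finset.card_univ, Fintype.card_fin] at hcard
  exact hcard

end Pool.Agent.Helper93.KS
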